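import Pool.Agent.helper62.VD.SpecE

set_option autoImplicit false

open MeasureTheory Filter Set Topology
open scoped ENNReal

namespace Pool.Agent.VDE

noncomputable section

theorem ECV_proof (h1 : ERD_stmt) (h2 : EUC_stmt) : ECV_stmt := by
  intro Γ S _ _ _ _ _ _ μ F0 K d f hB T ε A E hE hA
  obtain ⟨-, -, -, -, -, hun, -⟩ := h1 Γ S μ F0 K d f hB
  obtain ⟨-, -, -, -, hcl, -⟩ := h2 Γ S μ F0 K d f hB
  have hc : Countable Γ := hB.cnt
  have hcE : Countable E := hE.to_subtype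
  have hs : F0 ∩ A ⊆ ⋃ x : E, ⋃ γ : Γ, F0 ∩ {w | γ • w ∈ BB d f T (x : S) ε} := by
    rintro w ⟨hw0, hwA⟩
    obtain ⟨x, hx, γ, h⟩ := hA w hwA
    refine mem_iUnion.2 ⟨⟨x, hx⟩, mem_iUnion.2 ⟨γ, hw0, fun s hs => ?_⟩⟩
    rw [hB.fe]
    exact h s hs
  refine (measure_mono hs).trans ((measure_iUnion_le _).trans ?_)
  refine ENNReal.tsum_le_tsum fun x => (measure_iUnion_le _).trans ?_
  rw [hun _ (hcl (x : S) T ε).measurableSet]

end

end Pool.Agent.VDE
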